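import Mathlib
import Pool.Agent.H16.AvgRare

set_option autoImplicit false

namespace Pool.Agent.Results.MP_acd7a5_co.Yes

open Finset

theorem result (V : Type) [Fintype V] [DecidableEq V] (C : Finset (Finset V))
    (R : Set (Finset V × V)) (hroot : ∀ p ∈ R, p.2 ∉ p.1)
    (hone : ∀ p ∈ R, ∀ q ∈ R, p.2 = q.2 → p = q)
    (hC : ∀ F, F ∈ C ↔ ∀ p ∈ R, p.1 ⊆ F → p.2 ∈ F) (h0 : ∅ ∈ C) :
    2 * ∑ F ∈ C, F.card ≤ C.card * Fintype.card V :=
  H16.AvgRare.main V C R hroot hone hC h0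

end Pool.Agent.Results.MP_acd7a5_co.Yes
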